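import Pool.Agent.H68.GHK.Targets

/-!
Row KAP of the board ghk (MP_52e316_nt): densities near the orthogonal group exist
-/

set_option autoImplicit false

namespace Pool.Agent.H81.GHK

open MeasureTheory Pool.Agent.H34.GM Pool.Agent.H68.GHK

/-- the density before normalisation -/
noncomputable def k0 (m : ℕ) (w : Mat m) : ℝ :=
  max 0 (1 / (4 * m) - sz (w.transpose * w - 1))

lemma sz_continuous (m : ℕ) : Continuous (fun w : Mat m => sz w) := by
  unfold sz
  refine Continuous.norm ?_
  exact continuous_pi fun i => continuous_pi fun j => continuous_apply_apply i j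

lemma mt_continuous (m : ℕ) : Continuous (fun w : V m => (mt w : Mat m)) := continuous_id

lemma k0_cont (m : ℕ) : Continuous (fun w : V m => k0 m (mt w)) := by
  unfold k0
  refine continuous_const.max (continuous_const.sub ?_)
  refine (sz_continuous m).comp ?_
  refine Continuous.sub ?_ continuous_const
  exact ((mt_continuous m).matrix_transpose).matrix_mul (mt_continuous m)

lemma k0_inv (m : ℕ) (k : Mat m) (hk : k * k.transpose = 1) (w : Mat m) :
    k0 m (k * w) = k0 m w := by
  have hk2 : k.transpose * k = 1 := mul_eq_one_comm.mp hk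
  unfold k0
  rw [Matrix.transpose_mul, Matrix.mul_assoc, ← Matrix.mul_assoc k.transpose, hk2,
    Matrix.one_mul]

lemma k0_supp (m : ℕ) (w : Mat m) (h : k0 m w ≠ 0) :
    sz (w.transpose * w - 1) ≤ 1 / (4 * m) := by
  by_contra hc
  apply h
  unfold k0
  exact max_eq_left (by linarith)

lemma entry_le {m : ℕ} (z : Mat m) (i j : Fin m) : |z i j| ≤ sz z := by
  unfold sz
  refine le_trans ?_ (norm_le_pi_norm (fun i j => z i j : V m) i)
  exact norm_le_pi_norm (fun j => z i j) j

lemma k0_ball (m : ℕ) (hm : 1 ≤ m) (w : V m) (h : k0 m (mt w) ≠ 0) :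
    w ∈ Metric.closedBall (0 : V m) 2 := by
  have h1 := k0_supp m (mt w) h
  have hm0 : (1 : ℝ) ≤ m := by exact_mod_cast hm
  have h2 : (1 : ℝ) / (4 * m) ≤ 1 := by
    rw [div_le_one (by linarith)]
    linarith
  rw [mem_closedBall_zero_iff]
  refine (pi_norm_le_iff_of_nonneg (by norm_num)).mpr fun i => ?_
  refine (pi_norm_le_iff_of_nonneg (by norm_num)).mpr fun j => ?_
  rw [Real.norm_eq_abs]
  have h3 := (entry_le ((mt w).transpose * mt w - 1) j j).trans (h1.trans h2)
  have h4 : ((mt w).transpose * mt w - 1) j j = ∑ i, w i j ^ 2 - 1 := by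
    rw [Matrix.sub_apply, Matrix.mul_apply, Matrix.one_apply_eq]
    congr 1
    refine Finset.sum_congr rfl fun i _ => ?_
    rw [Matrix.transpose_apply, sq]
    rfl
  rw [h4] at h3
  have h5 : w i j ^ 2 ≤ ∑ i, w i j ^ 2 :=
    Finset.single_le_sum (f := fun i => w i j ^ 2) (fun i _ => sq_nonneg _)
      (Finset.mem_univ i)
  have h6 := (abs_le.mp h3).2
  have h7 : |w i j| ^ 2 ≤ 2 ^ 2 := by
    rw [sq_abs]
    linarith
  exact le_of_sq_le_sq h7 (by norm_num)

theorem pf_KAP : T_KAP := by
  intro m hm
  have hm0 : (1 : ℝ) ≤ m := by exact_mod_cast hm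
  have hcs : HasCompactSupport (fun w : V m => k0 m (mt w)) := by
    refine HasCompactSupport.intro (isCompact_closedBall (0 : V m) 2) fun w hw => ?_
    by_contra h
    exact hw (k0_ball m hm w h)
  have hi : Integrable (fun w : V m => k0 m (mt w)) :=
    (k0_cont m).integrable_of_hasCompactSupport hcs
  have hpos : 0 < ∫ w : V m, k0 m (mt w) := by
    refine (k0_cont m).integral_pos_of_hasCompactSupport_nonneg_nonzero hcs
      (fun w => le_max_left _ _) (x := fun i j => (1 : Mat m) i j) ?_
    have h1 : (mt (fun i j => (1 : Mat m) i j) : Mat m) = 1 := rfl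
    show k0 m (mt (fun i j => (1 : Mat m) i j)) ≠ 0
    rw [h1]
    unfold k0
    have h2 : sz ((1 : Mat m).transpose * 1 - 1) = 0 := by
      rw [Matrix.transpose_one, Matrix.one_mul, sub_self]
      unfold sz
      exact norm_zero
    rw [h2, sub_zero, max_eq_right (by positivity)]
    positivity
  refine ⟨fun w => (∫ w : V m, k0 m (mt w))⁻¹ * k0 m w, ⟨?_, ?_, ?_, ?_, ?_⟩⟩
  · exact continuous_const.mul (k0_cont m)
  · intro w
    exact mul_nonneg (inv_pos.mpr hpos).le (le_max_left _ _)
  · intro k hk w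
    show _ * k0 m (k * w) = _ * k0 m w
    rw [k0_inv m k hk]
  · intro w hw
    exact k0_supp m w (right_ne_zero_of_mul hw)
  · show ∫ w : V m, (∫ w : V m, k0 m (mt w))⁻¹ * k0 m (mt w) = 1
    rw [integral_const_mul]
    exact inv_mul_cancel₀ hpos.ne'

end Pool.Agent.H81.GHK
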